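import Pool.Agent.Helper14.W3.StB

/-!
# Module HkT of project W3: `T_l` and `Bo` commute with the involution `(-1 0; 0 1)`
-/

set_option autoImplicit false

namespace Pool.Agent.Helper29.W3

open Pool.Agent.Helper14.CV Pool.Agent.Helper14.W3

/-- the representatives `* std_P *⁻¹` -/
private def dT (l : ℕ) (P : Fin (l + 1)) : Matrix (Fin 2) (Fin 2) ℤ :=
  if (P : ℕ) < l then !![1, -((P : ℕ) : ℤ); 0, (l : ℤ)] else !![(l : ℤ), 0; 0, 1]

private theorem dT_lt (l : ℕ) (P : Fin (l + 1)) (h : (P : ℕ) < l) :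
    dT l P = !![1, -((P : ℕ) : ℤ); 0, (l : ℤ)] := if_pos h

private theorem dT_ge (l : ℕ) (P : Fin (l + 1)) (h : ¬ (P : ℕ) < l) :
    dT l P = !![(l : ℤ), 0; 0, 1] := if_neg h

private theorem tlT (hHk : S3Hk) (R : Type) (_ : AddCommGroup R) (n l : ℕ) (G : ℤ → ℤ → R)
    (hl : l.Prime) (h2 : l ≠ 3) (hG : Sym3 0 n G) :
    EqC (Tl l 1 (act (-1) 0 0 1 G)) (act (-1) 0 0 1 (Tl l 1 G)) := by
  have hlz : Prime (l : ℤ) := Nat.prime_iff_prime_int.mp hl
  have hl1 : ¬ (l : ℤ) ∣ 1 := by
    intro h
    exact hlz.not_isUnit (isUnit_of_dvd_one h)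
  have h1 := hHk R inferInstance n l G hl h2 hG (dT l) ?_ ?_ ?_
  · have h3 := h1.act (a := -1) (b := 0) (c := 0) (d := 1) (by simp)
    refine EqC.trans ?_ h3
    refine EqC.of_eq fun p q _ => ?_
    unfold Tl act
    beta_reduce
    rw [Fin.sum_univ_castSucc, Finset.sum_range, add_comm]
    congr 1
    · refine Finset.sum_congr rfl fun i _ => ?_
      rw [dT_lt l _ (by simp)]
      simp only [Matrix.cons_val', Matrix.cons_val_zero, Matrix.cons_val_one, Matrix.of_apply,
        Matrix.cons_val_fin_one, Fin.val_castSucc]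
      congr 1 <;> ring
    · rw [dT_ge l _ (by simp)]
      simp only [Matrix.cons_val', Matrix.cons_val_zero, Matrix.cons_val_one, Matrix.of_apply,
        Matrix.cons_val_fin_one]
      congr 1 <;> ring
  · intro P
    by_cases h : (P : ℕ) < l
    · rw [dT_lt l P h, Matrix.det_fin_two_of]
      ring
    · rw [dT_ge l P h, Matrix.det_fin_two_of]
      ring
  · intro P
    by_cases h : (P : ℕ) < l
    · rw [dT_lt l P h]
      show (3 : ℤ) ^ n ∣ 0
      exact dvd_zero _
    · rw [dT_ge l P h]
      show (3 : ℤ) ^ n ∣ 0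
      exact dvd_zero _
  · intro P P' hP hd
    by_cases h : (P : ℕ) < l
    · by_cases h' : (P' : ℕ) < l
      · rw [dT_lt l P h, dT_lt l P' h', Matrix.adjugate_fin_two_of] at hd
        have h3 := hd 0 1
        simp only [Matrix.mul_apply, Fin.sum_univ_two, Matrix.cons_val', Matrix.cons_val_zero,
          Matrix.cons_val_one, Matrix.of_apply, Matrix.cons_val_fin_one] at h3
        have h4 : (l : ℤ) ∣ (((P' : ℕ) : ℤ) - ((P : ℕ) : ℤ)) := by
          convert h3 using 1
          ring
        have h6 : (((P' : ℕ) : ℤ) - ((P : ℕ) : ℤ)) = 0 := by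
          apply Int.eq_zero_of_abs_lt_dvd h4
          rw [abs_lt]
          omega
        apply hP
        apply Fin.ext
        omega
      · rw [dT_lt l P h, dT_ge l P' h', Matrix.adjugate_fin_two_of] at hd
        have h3 := hd 0 0
        simp only [Matrix.mul_apply, Fin.sum_univ_two, Matrix.cons_val', Matrix.cons_val_zero,
          Matrix.cons_val_one, Matrix.of_apply, Matrix.cons_val_fin_one] at h3
        apply hl1
        convert h3 using 1
        ring
    · by_cases h' : (P' : ℕ) < l
      · rw [dT_ge l P h, dT_lt l P' h', Matrix.adjugate_fin_two_of] at hd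
        have h3 := hd 1 1
        simp only [Matrix.mul_apply, Fin.sum_univ_two, Matrix.cons_val', Matrix.cons_val_zero,
          Matrix.cons_val_one, Matrix.of_apply, Matrix.cons_val_fin_one] at h3
        apply hl1
        convert h3 using 1
        ring
      · apply hP
        apply Fin.ext
        have e1 := P.isLt
        have e2 := P'.isLt
        omega

theorem hHkT (hHk : S3Hk) (hHkS : S3HkS) : S3HkT := by
  intro R _ n G hG
  refine ⟨fun l hl h3 => tlT hHk R inferInstance n l G hl h3 hG, ?_⟩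
  have h2S : Sym3 0 n (Tl 2 1 G) :=
    (hHkS R inferInstance n G hG).1 2 Nat.prime_two (by norm_num)
  have e7 := tlT hHk R inferInstance n 7 G (by norm_num) (by norm_num) hG
  have e2 := tlT hHk R inferInstance n 2 G Nat.prime_two (by norm_num) hG
  have e22 := tlT hHk R inferInstance n 2 (Tl 2 1 G) Nat.prime_two (by norm_num) h2S
  have e2' := (e2.Tl (l := 2) (by norm_num) 1).trans e22
  exact (e7.add (EqC.refl (act (-1) 0 0 1 G))).sub e2'

end Pool.Agent.Helper29.W3
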